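import Mathlib

set_option autoImplicit false

/-!
# Counting vectors of iterated wreath products

The Frobenius type congruence that makes a congruence modulo a prime `l` for all iterated wreath
products an equality.
-/

namespace Pool.Agent.TH777.WR

open Finset

variable {Γ : Type} [CommGroup Γ]

/-- The Adams operation `g ↦ g ^ l` on the integral group ring. -/
noncomputable def psi (l : ℕ) : MonoidAlgebra ℤ Γ →+* MonoidAlgebra ℤ Γ :=
  MonoidAlgebra.mapDomainRingHom ℤ (powMonoidHom l : Γ →* Γ)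

theorem psi_single (l : ℕ) (g : Γ) (a : ℤ) :
    psi l (MonoidAlgebra.single g a) = MonoidAlgebra.single (g ^ l) a := by
  unfold psi
  simp [MonoidAlgebra.mapDomainRingHom]

theorem psi_psi (l k : ℕ) (x : MonoidAlgebra ℤ Γ) : psi k (psi l x) = psi (l * k) x := by
  induction x using MonoidAlgebra.induction_linear with
  | zero => simp
  | add f g hf hg => simp [hf, hg]
  | single g a => rw [psi_single, psi_single, psi_single, pow_mul]

theorem psi_of_card [Finite Γ] (k : ℕ) (hk : k ≡ 1 [MOD Nat.card Γ]) (x : MonoidAlgebra ℤ Γ) :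
    psi k x = x := by
  induction x using MonoidAlgebra.induction_linear with
  | zero => simp
  | add f g hf hg => simp [hf, hg]
  | single g a =>
    rw [psi_single]
    congr 1
    have h1 : g ^ k = g ^ 1 := by
      rw [pow_eq_pow_iff_modEq]
      exact hk.of_dvd (orderOf_dvd_natCard g)
    simpa using h1

theorem dvd_of_dvd_psi [Finite Γ] {l : ℕ} (hc : (Nat.card Γ).Coprime l) (N : ℕ)
    (x : MonoidAlgebra ℤ Γ) (h : (N : MonoidAlgebra ℤ Γ) ∣ psi l x) :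
    (N : MonoidAlgebra ℤ Γ) ∣ x := by
  obtain ⟨k, hk⟩ : ∃ k, l * k ≡ 1 [MOD Nat.card Γ] := by
    have hpos : Nat.card Γ ≠ 0 := Nat.card_pos.ne'
    rcases Nat.lt_or_ge 1 (Nat.card Γ) with h1 | h1
    · obtain ⟨k, hk⟩ := Nat.exists_mul_mod_eq_one_of_coprime hc.symm h1
      exact ⟨k, by rw [Nat.ModEq, hk.2, Nat.mod_eq_of_lt h1]⟩
    · have : Nat.card Γ = 1 := by omega
      exact ⟨1, by rw [this]; exact Nat.modEq_one⟩
  have h2 : psi k (N : MonoidAlgebra ℤ Γ) ∣ psi k (psi l x) := map_dvd _ h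
  rw [psi_psi, psi_of_card _ hk, map_natCast] at h2
  exact h2

theorem pow_dvd_pow_sub {R : Type} [CommRing R] (l v : ℕ) (hv : 1 ≤ v) (a b : R)
    (h : ((l ^ v : ℕ) : R) ∣ a - b) : ((l ^ (v + 1) : ℕ) : R) ∣ a ^ l - b ^ l := by
  obtain ⟨c, hc⟩ := h
  have ha : a = b + (l ^ v : ℕ) * c := by rw [← hc]; ring
  obtain ⟨k, hk⟩ := Polynomial.powAddExpansion b ((l ^ v : ℕ) * c) l
  rw [ha, hk]
  have e1 : b ^ l + (l : R) * b ^ (l - 1) * ((l ^ v : ℕ) * c) + k * ((l ^ v : ℕ) * c) ^ 2 - b ^ l =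
      ((l ^ (v + 1) : ℕ) : R) * (b ^ (l - 1) * c + k * c ^ 2 * (l ^ (v - 1) : ℕ)) := by
    obtain ⟨w, rfl⟩ : ∃ w, v = w + 1 := ⟨v - 1, by omega⟩
    push_cast
    ring
  rw [e1]
  exact Dvd.intro _ rfl

theorem step [Finite Γ] {l : ℕ} (hc : (Nat.card Γ).Coprime l) (lam : Γ) (v : ℕ) (hv : 1 ≤ v)
    (m n m' n' : MonoidAlgebra ℤ Γ)
    (hm : (l : MonoidAlgebra ℤ Γ) * m' =
      MonoidAlgebra.single lam 1 * (m ^ l - psi l m) + (l : MonoidAlgebra ℤ Γ) ^ 2 * psi l m)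
    (hn : (l : MonoidAlgebra ℤ Γ) * n' =
      MonoidAlgebra.single lam 1 * (n ^ l - psi l n) + (l : MonoidAlgebra ℤ Γ) ^ 2 * psi l n)
    (h : ((l ^ v : ℕ) : MonoidAlgebra ℤ Γ) ∣ m - n)
    (h' : ((l ^ v : ℕ) : MonoidAlgebra ℤ Γ) ∣ m' - n') :
    ((l ^ (v + 1) : ℕ) : MonoidAlgebra ℤ Γ) ∣ m - n := by
  have h1 : ((l ^ (v + 1) : ℕ) : MonoidAlgebra ℤ Γ) ∣ (l : MonoidAlgebra ℤ Γ) * (m' - n') := by
    rw [pow_succ', Nat.cast_mul]
    exact mul_dvd_mul_left _ h'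
  have h2 := pow_dvd_pow_sub l v hv m n h
  have h3 : ((l ^ (v + 1) : ℕ) : MonoidAlgebra ℤ Γ) ∣
      (l : MonoidAlgebra ℤ Γ) ^ 2 * psi l (m - n) := by
    have h4 : ((l ^ v : ℕ) : MonoidAlgebra ℤ Γ) ∣ psi l (m - n) := by
      have := map_dvd (psi l) h
      rwa [map_natCast] at this
    rw [pow_succ', Nat.cast_mul, pow_two, mul_assoc]
    exact mul_dvd_mul_left _ (h4.mul_left _)
  have h5 : MonoidAlgebra.single lam (1 : ℤ) * psi l (m - n) =
      MonoidAlgebra.single lam 1 * (m ^ l - n ^ l) + (l : MonoidAlgebra ℤ Γ) ^ 2 * psi l (m - n)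
        - (l : MonoidAlgebra ℤ Γ) * (m' - n') := by
    rw [mul_sub (l : MonoidAlgebra ℤ Γ), hm, hn, map_sub]
    ring
  have h6 : ((l ^ (v + 1) : ℕ) : MonoidAlgebra ℤ Γ) ∣
      MonoidAlgebra.single lam (1 : ℤ) * psi l (m - n) := by
    rw [h5]
    exact dvd_sub (dvd_add (h2.mul_left _) h3) h1
  have h7 : ((l ^ (v + 1) : ℕ) : MonoidAlgebra ℤ Γ) ∣ psi l (m - n) := by
    have h8 := h6.mul_left (MonoidAlgebra.single lam⁻¹ (1 : ℤ))
    rw [← mul_assoc, MonoidAlgebra.single_mul_single, inv_mul_cancel, one_mul,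
      ← MonoidAlgebra.one_def, one_mul] at h8
    exact h8
  exact dvd_of_dvd_psi hc _ _ h7

theorem core [Finite Γ] {l : ℕ} (hl : 2 ≤ l) (hc : (Nat.card Γ).Coprime l) (lam : Γ)
    (m n : ℕ → MonoidAlgebra ℤ Γ)
    (hm : ∀ i, (l : MonoidAlgebra ℤ Γ) * m (i + 1) = MonoidAlgebra.single lam 1 *
      (m i ^ l - psi l (m i)) + (l : MonoidAlgebra ℤ Γ) ^ 2 * psi l (m i))
    (hn : ∀ i, (l : MonoidAlgebra ℤ Γ) * n (i + 1) = MonoidAlgebra.single lam 1 *
      (n i ^ l - psi l (n i)) + (l : MonoidAlgebra ℤ Γ) ^ 2 * psi l (n i))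
    (h : ∀ i, (l : MonoidAlgebra ℤ Γ) ∣ m i - n i) : m 0 = n 0 := by
  have key : ∀ v : ℕ, ∀ i, ((l ^ (v + 1) : ℕ) : MonoidAlgebra ℤ Γ) ∣ m i - n i := by
    intro v
    induction v with
    | zero => intro i; simpa using h i
    | succ v ih =>
      intro i
      exact step hc lam (v + 1) (by omega) _ _ _ _ (hm i) (hn i) (ih i) (ih (i + 1))
  rw [← sub_eq_zero]
  ext g
  have h1 : ∀ v : ℕ, ((l ^ (v + 1) : ℕ) : ℤ) ∣ (m 0 - n 0).coeff g := by
    intro v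
    obtain ⟨c, hc'⟩ := key v 0
    refine ⟨c.coeff g, ?_⟩
    rw [hc', ← nsmul_eq_mul, MonoidAlgebra.coeff_smul_apply, nsmul_eq_mul]
  have h2 := h1 ((m 0 - n 0).coeff g).natAbs
  have h3 : |(m 0 - n 0).coeff g| < ((l ^ (((m 0 - n 0).coeff g).natAbs + 1) : ℕ) : ℤ) := by
    rw [Int.abs_eq_natAbs]
    have h4 : ((m 0 - n 0).coeff g).natAbs < 2 ^ ((m 0 - n 0).coeff g).natAbs := Nat.lt_two_pow_self
    have h5 : 2 ^ ((m 0 - n 0).coeff g).natAbs ≤ l ^ (((m 0 - n 0).coeff g).natAbs + 1) :=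
      (Nat.pow_le_pow_left hl _).trans (Nat.pow_le_pow_right (by omega) (by omega))
    exact_mod_cast h4.trans_le h5
  have h6 := Int.eq_zero_of_abs_lt_dvd h2 h3
  simpa using h6

end Pool.Agent.TH777.WR
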