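import Mathlib
import Pool.Agent.TH777.WR.Core

set_option autoImplicit false

/-!
# The integral case: families of blocks closed under wreath products with `C_l`
-/

namespace Pool.Agent.TH777.WR

theorem coreZ {l : ℕ} (hl : 2 ≤ l) (m n : ℕ → ℤ)
    (hm : ∀ i, (l : ℤ) * m (i + 1) + m i = m i ^ l + (l : ℤ) ^ 2 * m i)
    (hn : ∀ i, (l : ℤ) * n (i + 1) + n i = n i ^ l + (l : ℤ) ^ 2 * n i)
    (h : ∀ i, (l : ℤ) ∣ m i - n i) : m 0 = n 0 := by
  have key : ∀ v : ℕ, ∀ i, ((l ^ (v + 1) : ℕ) : ℤ) ∣ m i - n i := by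
    intro v
    induction v with
    | zero => intro i; simpa using h i
    | succ v ih =>
      intro i
      have e : m i - n i = (m i ^ l - n i ^ l) + (l : ℤ) ^ 2 * (m i - n i) -
          (l : ℤ) * (m (i + 1) - n (i + 1)) := by
        linear_combination hm i - hn i
      have h1 := pow_dvd_pow_sub l (v + 1) (by omega) (m i) (n i) (ih i)
      have h2 : ((l ^ (v + 1 + 1) : ℕ) : ℤ) ∣ (l : ℤ) ^ 2 * (m i - n i) := by
        rw [pow_succ', Nat.cast_mul, pow_two, mul_assoc]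
        exact mul_dvd_mul_left _ ((ih i).mul_left _)
      have h3 : ((l ^ (v + 1 + 1) : ℕ) : ℤ) ∣ (l : ℤ) * (m (i + 1) - n (i + 1)) := by
        rw [pow_succ', Nat.cast_mul]
        exact mul_dvd_mul_left _ (ih (i + 1))
      rw [e]
      exact dvd_sub (dvd_add h1 h2) h3
  have h2 := key (m 0 - n 0).natAbs 0
  have h3 : |m 0 - n 0| < ((l ^ ((m 0 - n 0).natAbs + 1) : ℕ) : ℤ) := by
    rw [Int.abs_eq_natAbs]
    have h4 : (m 0 - n 0).natAbs < 2 ^ (m 0 - n 0).natAbs := Nat.lt_two_pow_self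
    have h5 : 2 ^ (m 0 - n 0).natAbs ≤ l ^ ((m 0 - n 0).natAbs + 1) :=
      (Nat.pow_le_pow_left hl _).trans (Nat.pow_le_pow_right (by omega) (by omega))
    exact_mod_cast h4.trans_le h5
  exact sub_eq_zero.1 (Int.eq_zero_of_abs_lt_dvd h2 h3)

end Pool.Agent.TH777.WR
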