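import Mathlib

set_option autoImplicit false

/-!
# Irreducible complex characters
-/

namespace Pool.Agent.TH777.WR

/-- The irreducible complex characters of `G`: the characters of the irreducible representations
of `G` on the spaces `ℂ ^ n`. -/
abbrev Irr (G : Type) [Group G] : Type :=
  {χ : G → ℂ // ∃ (n : ℕ) (ρ : Representation ℂ G (Fin n → ℂ)), ρ.IsIrreducible ∧ ρ.character = χ}

/-- The degree `χ(1)`. -/
noncomputable def deg {G : Type} [Group G] (χ : Irr G) : ℕ := ⌊(χ.1 1).re⌋₊

theorem deg_eq {G : Type} [Group G] (χ : Irr G) : (deg χ : ℂ) = χ.1 1 := by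
  obtain ⟨n, ρ, _, hρ⟩ := χ.2
  unfold deg
  rw [← hρ, Representation.char_one]
  simp

theorem char_comp {G H : Type} [Group G] [Group H] (e : G ≃* H) {n : ℕ}
    (ρ : Representation ℂ G (Fin n → ℂ)) :
    Representation.character (ρ.comp e.symm.toMonoidHom : Representation ℂ H (Fin n → ℂ)) =
      ρ.character ∘ e.symm := rfl

/-- Subrepresentations do not change under an isomorphism of groups. -/
def subEquiv {G H : Type} [Group G] [Group H] (e : G ≃* H) {n : ℕ}
    (ρ : Representation ℂ G (Fin n → ℂ)) :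
    Subrepresentation (ρ.comp e.symm.toMonoidHom : Representation ℂ H (Fin n → ℂ)) ≃o
      Subrepresentation ρ where
  toFun W := ⟨W.toSubmodule, fun g v hv => by
    have := W.apply_mem_toSubmodule (e g) hv
    simpa using this⟩
  invFun W := ⟨W.toSubmodule, fun g v hv => W.apply_mem_toSubmodule (e.symm g) hv⟩
  left_inv _ := rfl
  right_inv _ := rfl
  map_rel_iff' := Iff.rfl

theorem irr_comp {G H : Type} [Group G] [Group H] (e : G ≃* H) {n : ℕ}
    (ρ : Representation ℂ G (Fin n → ℂ)) (h : ρ.IsIrreducible) :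
    Representation.IsIrreducible
      (ρ.comp e.symm.toMonoidHom : Representation ℂ H (Fin n → ℂ)) :=
  (subEquiv e ρ).isSimpleOrder

/-- Isomorphic groups have the same irreducible characters. -/
noncomputable def irrCongr {G H : Type} [Group G] [Group H] (e : G ≃* H) : Irr G ≃ Irr H where
  toFun χ := ⟨χ.1 ∘ e.symm, by
    obtain ⟨n, ρ, h1, h2⟩ := χ.2
    exact ⟨n, _, irr_comp e ρ h1, by rw [char_comp, h2]⟩⟩
  invFun χ := ⟨χ.1 ∘ e, by
    obtain ⟨n, ρ, h1, h2⟩ := χ.2
    exact ⟨n, _, irr_comp e.symm ρ h1, by rw [char_comp, h2]; rfl⟩⟩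
  left_inv χ := by
    apply Subtype.ext
    funext g
    simp
  right_inv χ := by
    apply Subtype.ext
    funext g
    simp

theorem deg_irrCongr {G H : Type} [Group G] [Group H] (e : G ≃* H) (χ : Irr G) :
    deg (irrCongr e χ) = deg χ := by
  have h : (irrCongr e χ).1 1 = χ.1 1 := by
    show χ.1 (e.symm 1) = χ.1 1
    rw [map_one]
  unfold deg
  rw [h]

open Classical in
theorem inner_irr {G : Type} [Group G] [Finite G] [Fintype G] (χ ψ : Irr G) :
    (Nat.card G : ℂ)⁻¹ * ∑ g : G, χ.1 g * ψ.1 g⁻¹ = if χ = ψ then 1 else 0 := by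
  classical
  obtain ⟨n, ρ, h1, h2⟩ := χ.2
  obtain ⟨m, σ, h3, h4⟩ := ψ.2
  have := h1
  have := h3
  haveI : Invertible (Nat.card G : ℂ) := invertibleOfNonzero (by
    exact_mod_cast (Nat.card_pos (α := G)).ne')
  by_cases h : χ = ψ
  · rw [if_pos h]
    subst h
    have h5 := Representation.char_orthonormal ρ ρ
    rw [if_pos ⟨Representation.Equiv.refl ρ⟩, h2] at h5
    simpa using h5
  · rw [if_neg h]
    have h5 := Representation.char_orthonormal ρ σ
    rw [if_neg, h2, h4] at h5
    · simpa using h5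
    · rintro ⟨φ⟩
      apply h
      apply Subtype.ext
      rw [← h2, ← h4, Representation.char_iso φ]

instance irr_finite (G : Type) [Group G] [Finite G] : Finite (Irr G) := by
  classical
  haveI := Fintype.ofFinite G
  have hli : LinearIndependent ℂ (fun χ : Irr G => (χ.1 : G → ℂ)) := by
    rw [linearIndependent_iff']
    intro s c hs ψ hψ
    have h1 : (Nat.card G : ℂ)⁻¹ * ∑ g : G, (∑ χ ∈ s, c χ • (χ.1 : G → ℂ)) g * ψ.1 g⁻¹ = 0 := by
      rw [hs]; simp
    have h2 : (Nat.card G : ℂ)⁻¹ * ∑ g : G, (∑ χ ∈ s, c χ • (χ.1 : G → ℂ)) g * ψ.1 g⁻¹ =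
        ∑ χ ∈ s, c χ * ((Nat.card G : ℂ)⁻¹ * ∑ g : G, χ.1 g * ψ.1 g⁻¹) := by
      simp only [Finset.sum_apply, Pi.smul_apply, smul_eq_mul, Finset.sum_mul, Finset.mul_sum]
      rw [Finset.sum_comm]
      refine Finset.sum_congr rfl fun χ _ => Finset.sum_congr rfl fun g _ => ?_
      ring
    rw [h2] at h1
    simp only [inner_irr] at h1
    simpa [hψ] using h1
  exact hli.finite_of_isNoetherian

end Pool.Agent.TH777.WR
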