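import Mathlib

set_option autoImplicit false

/-!
# Sylow subgroups of a wreath product with a group of order prime to `p`
-/

namespace Pool.Agent.TH777.WR

open RegularWreathProduct

variable {G Q : Type} [Group G] [Group Q]

/-- `H ^ Q` in `G ≀ Q`. -/
def base (H : Subgroup G) (Q : Type) [Group Q] : Subgroup (G ≀ᵣ Q) where
  carrier := {w | w.right = 1 ∧ ∀ c, w.left c ∈ H}
  one_mem' := ⟨rfl, fun _ => H.one_mem⟩
  mul_mem' := by
    rintro a b ⟨ha, ha'⟩ ⟨hb, hb'⟩
    refine ⟨by simp [ha, hb], fun c => ?_⟩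
    simp only [mul_left, Pi.mul_apply]
    exact H.mul_mem (ha' _) (hb' _)
  inv_mem' := by
    rintro a ⟨ha, ha'⟩
    refine ⟨by simp [ha], fun c => ?_⟩
    simp only [inv_left, Pi.inv_apply]
    exact H.inv_mem (ha' _)

theorem mem_base {H : Subgroup G} {w : G ≀ᵣ Q} :
    w ∈ base H Q ↔ w.right = 1 ∧ ∀ c, w.left c ∈ H := Iff.rfl

/-- `H ^ Q` as a set of functions. -/
def baseEquiv (H : Subgroup G) : base H Q ≃ (Q → H) where
  toFun w := fun c => ⟨w.1.left c, w.2.2 c⟩
  invFun f := ⟨⟨fun c => (f c : G), 1⟩, rfl, fun c => (f c).2⟩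
  left_inv w := by
    apply Subtype.ext
    apply RegularWreathProduct.ext
    · rfl
    · exact w.2.1.symm
  right_inv f := rfl

theorem card_base [Finite Q] (H : Subgroup G) : Nat.card (base H Q) = Nat.card H ^ Nat.card Q := by
  rw [Nat.card_congr (baseEquiv H), Nat.card_fun]

variable {p : ℕ} [hp : Fact p.Prime] [Finite G] [Finite Q]

/-- The Sylow subgroup `P ^ Q` of `G ≀ Q`. -/
noncomputable def wrSyl (P : Sylow p G) (Q : Type) [Group Q] [Finite Q] (h : ¬ p ∣ Nat.card Q) :
    Sylow p (G ≀ᵣ Q) :=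
  Sylow.ofCard (base (P : Subgroup G) Q) (by
    rw [card_base, Sylow.card_eq_multiplicity, RegularWreathProduct.card,
      Nat.factorization_mul (pow_ne_zero _ Nat.card_pos.ne') Nat.card_pos.ne', Nat.factorization_pow]
    simp only [Finsupp.coe_add, Finsupp.coe_smul, Pi.add_apply, Pi.smul_apply, smul_eq_mul]
    rw [Nat.factorization_eq_zero_of_not_dvd h, add_zero, ← pow_mul, mul_comm])

theorem wrSyl_coe (P : Sylow p G) (h : ¬ p ∣ Nat.card Q) :
    (wrSyl P Q h : Subgroup (G ≀ᵣ Q)) = base (P : Subgroup G) Q := rfl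

omit [Finite G] [Finite Q] in
theorem mem_normalizer_base {H : Subgroup G} {w : G ≀ᵣ Q} :
    w ∈ Subgroup.normalizer (base H Q : Set (G ≀ᵣ Q)) ↔
      ∀ c, w.left c ∈ Subgroup.normalizer (H : Set G) := by
  classical
  have hconj : ∀ a : G ≀ᵣ Q, a.right = 1 → (w * a * w⁻¹).right = 1 ∧
      ∀ c, (w * a * w⁻¹).left c = w.left c * a.left (w.right⁻¹ * c) * (w.left c)⁻¹ := by
    intro a ha
    refine ⟨by simp [ha], fun c => ?_⟩
    simp [ha]
  constructor
  · intro h c
    rw [Subgroup.mem_normalizer_iff] at h ⊢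
    intro y
    have h1 := h ⟨fun d => if d = w.right⁻¹ * c then y else 1, 1⟩
    rw [mem_base, mem_base] at h1
    obtain ⟨e1, e2⟩ := hconj ⟨fun d => if d = w.right⁻¹ * c then y else 1, 1⟩ rfl
    simp only [e1, e2, true_and] at h1
    constructor
    · intro hy
      have h2 := h1.1 (fun d => by split_ifs; exacts [hy, H.one_mem]) c
      simpa using h2
    · intro hy
      have h2 := h1.2 (fun d => by
        by_cases hd : d = c
        · subst hd; simpa using hy
        · have : w.right⁻¹ * d ≠ w.right⁻¹ * c := fun h => hd (mul_left_cancel h)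
          simp [this]) (w.right⁻¹ * c)
      simpa using h2
  · intro h
    rw [Subgroup.mem_normalizer_iff]
    intro a
    rw [mem_base, mem_base]
    constructor
    · rintro ⟨ha, ha'⟩
      obtain ⟨e1, e2⟩ := hconj a ha
      refine ⟨e1, fun c => ?_⟩
      rw [e2]
      exact ((Subgroup.mem_normalizer_iff.1 (h c)) _).1 (ha' _)
    · rintro ⟨ha, ha'⟩
      have ha0 : a.right = 1 := by
        have h3 : w.right * a.right * w.right⁻¹ = 1 := by simpa using ha
        have h4 : w.right * a.right = w.right := mul_inv_eq_one.1 h3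
        exact mul_eq_left.1 h4
      obtain ⟨e1, e2⟩ := hconj a ha0
      refine ⟨ha0, fun c => ?_⟩
      have h5 := ha' (w.right * c)
      rw [e2] at h5
      have h6 := ((Subgroup.mem_normalizer_iff.1 (h (w.right * c))) _).2 h5
      simpa using h6

/-- The normaliser of `H ^ Q` in `G ≀ Q` is `N_G(H) ≀ Q`. -/
def normEquiv (H : Subgroup G) :
    Subgroup.normalizer (base H Q : Set (G ≀ᵣ Q)) ≃* (Subgroup.normalizer (H : Set G)) ≀ᵣ Q where
  toFun w := ⟨fun c => ⟨w.1.left c, mem_normalizer_base.1 w.2 c⟩, w.1.right⟩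
  invFun v := ⟨⟨fun c => (v.left c : G), v.right⟩, mem_normalizer_base.2 fun c => (v.left c).2⟩
  left_inv w := rfl
  right_inv v := rfl
  map_mul' a b := rfl

end Pool.Agent.TH777.WR
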