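import Mathlib
import Pool.Agent.TH777.WR.Core

set_option autoImplicit false

/-!
# From the description of the characters of a wreath product to the counting vectors
-/

namespace Pool.Agent.TH777.WR

open Finset

/-- The shape of Clifford theory for a wreath product with a group of prime order `l` : `I` are the
characters of the base group, `I'` those of the wreath product, `d`, `d'` are (classes of) degrees
and `lam` is the class of `l`. Every element of `I'` either is induced from exactly `l` of the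
non-constant `l`-tuples, or is one of the `l` extensions of exactly one constant tuple. -/
def Clif {Γ : Type} [CommMonoid Γ] (l : ℕ) (lam : Γ) {I I' : Type} (d : I → Γ) (d' : I' → Γ) :
    Prop :=
  ∃ (ind : {f : Fin l → I // ∃ i j, f i ≠ f j} → I') (ext : I × Fin l → I'),
    (∀ x, ((∀ y, ext y ≠ x) ∧ Nat.card {f // ind f = x} = l) ∨
      ((∀ f, ind f ≠ x) ∧ ∃! y, ext y = x)) ∧
    (∀ f, d' (ind f) = lam * ∏ i, d (f.1 i)) ∧ (∀ y, d' (ext y) = d y.1 ^ l)

variable {Γ : Type} [CommGroup Γ]

/-- The counting vector. -/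
noncomputable def mass {I : Type} [Fintype I] (d : I → Γ) : MonoidAlgebra ℤ Γ :=
  ∑ x, MonoidAlgebra.single (d x) 1

theorem sum_fib {I J : Type} [Fintype I] [Fintype J] (u : J → I) (F : I → MonoidAlgebra ℤ Γ) :
    ∑ y, F (u y) = ∑ x, (Nat.card {y // u y = x} : MonoidAlgebra ℤ Γ) * F x := by
  classical
  rw [← Finset.sum_fiberwise univ u (fun y => F (u y))]
  refine Finset.sum_congr rfl fun x _ => ?_
  rw [Finset.sum_congr rfl (g := fun _ => F x)
    (fun y hy => by rw [(Finset.mem_filter.1 hy).2]), Finset.sum_const, nsmul_eq_mul]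
  congr 2
  rw [Nat.card_eq_fintype_card, Fintype.card_subtype]

theorem mass_pow {I : Type} [Fintype I] (d : I → Γ) (l : ℕ) :
    mass d ^ l = ∑ f : Fin l → I, MonoidAlgebra.single (∏ i, d (f i)) 1 := by
  classical
  have h1 : mass d ^ l = ∏ _i : Fin l, ∑ x : I, MonoidAlgebra.single (d x) (1 : ℤ) := by
    simp [mass]
  rw [h1, Finset.prod_univ_sum, Fintype.piFinset_univ]
  refine Finset.sum_congr rfl fun f _ => ?_
  have h2 : ∀ s : Finset (Fin l), ∏ i ∈ s, MonoidAlgebra.single (d (f i)) (1 : ℤ) =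
      MonoidAlgebra.single (∏ i ∈ s, d (f i)) 1 := by
    intro s
    induction s using Finset.induction_on with
    | empty => simp [MonoidAlgebra.one_def]
    | insert a s ha ih =>
      rw [Finset.prod_insert ha, Finset.prod_insert ha, ih, MonoidAlgebra.single_mul_single, one_mul]
  exact h2 _

theorem psi_mass {I : Type} [Fintype I] (d : I → Γ) (l : ℕ) :
    psi l (mass d) = ∑ x, MonoidAlgebra.single (d x ^ l) 1 := by
  unfold mass
  rw [map_sum]
  exact Finset.sum_congr rfl fun x _ => psi_single _ _ _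

theorem nonconst {I : Type} [Fintype I] (d : I → Γ) (l : ℕ) (hl : 1 ≤ l)
    [Fintype {f : Fin l → I // ∃ i j, f i ≠ f j}] :
    ∑ f : {f : Fin l → I // ∃ i j, f i ≠ f j}, MonoidAlgebra.single (∏ i, d (f.1 i)) (1 : ℤ) =
      mass d ^ l - psi l (mass d) := by
  classical
  rw [mass_pow, psi_mass, eq_sub_iff_add_eq]
  rw [← Finset.sum_filter_add_sum_filter_not univ (fun f : Fin l → I => ∃ i j, f i ≠ f j)]
  congr 1
  · rw [← Finset.sum_subtype_eq_sum_filter]
    refine Finset.sum_congr ?_ fun _ _ => rfl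
    ext x; simp
  · symm
    refine Finset.sum_bij' (fun f _ => f ⟨0, hl⟩) (fun x _ => fun _ => x) ?_ ?_ ?_ ?_ ?_
    · intro f _; simp
    · intro x _; simp
    · intro f hf
      simp only [mem_filter, mem_univ, true_and, not_exists, not_not] at hf
      funext i
      exact hf _ _
    · intro x _; rfl
    · intro f hf
      simp only [mem_filter, mem_univ, true_and, not_exists, not_not] at hf
      congr 1
      rw [Finset.prod_congr rfl (fun i _ => by rw [hf i ⟨0, hl⟩])]
      simp

theorem clif_mass {l : ℕ} (hl : 1 ≤ l) {lam : Γ} {I I' : Type} [Fintype I] [Fintype I']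
    {d : I → Γ} {d' : I' → Γ} (h : Clif l lam d d') :
    (l : MonoidAlgebra ℤ Γ) * mass d' = MonoidAlgebra.single lam 1 *
      (mass d ^ l - psi l (mass d)) + (l : MonoidAlgebra ℤ Γ) ^ 2 * psi l (mass d) := by
  classical
  obtain ⟨ind, ext, hx, hi, he⟩ := h
  set F : I' → MonoidAlgebra ℤ Γ := fun x => MonoidAlgebra.single (d' x) 1 with hF
  have hA := sum_fib ind F
  have hB := sum_fib ext F
  have hA' : ∑ y, F (ind y) = MonoidAlgebra.single lam 1 * (mass d ^ l - psi l (mass d)) := by
    rw [← nonconst d l hl, Finset.mul_sum]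
    refine Finset.sum_congr rfl fun f _ => ?_
    rw [hF]
    simp only
    rw [hi, MonoidAlgebra.single_mul_single, one_mul]
  have hB' : ∑ y, F (ext y) = (l : MonoidAlgebra ℤ Γ) * psi l (mass d) := by
    rw [psi_mass, Fintype.sum_prod_type, Finset.mul_sum]
    refine Finset.sum_congr rfl fun x _ => ?_
    rw [hF]
    simp only [he]
    rw [Finset.sum_const, Finset.card_univ, Fintype.card_fin, nsmul_eq_mul]
  have hC : ∀ x, (Nat.card {y // ind y = x} : MonoidAlgebra ℤ Γ) +
      (l : MonoidAlgebra ℤ Γ) * (Nat.card {y // ext y = x} : MonoidAlgebra ℤ Γ) = l := by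
    intro x
    rcases hx x with ⟨h1, h2⟩ | ⟨h1, y, hy1, hy2⟩
    · have : IsEmpty {y // ext y = x} := ⟨fun y => h1 _ y.2⟩
      rw [h2, Nat.card_of_isEmpty]; simp
    · have : IsEmpty {y // ind y = x} := ⟨fun y => h1 _ y.2⟩
      haveI : Unique {y // ext y = x} := ⟨⟨⟨y, hy1⟩⟩, fun z => Subtype.ext (hy2 _ z.2)⟩
      rw [Nat.card_of_isEmpty, Nat.card_unique]; simp
  have hD : (l : MonoidAlgebra ℤ Γ) * mass d' = ∑ x, (l : MonoidAlgebra ℤ Γ) * F x := by
    rw [← Finset.mul_sum]; rfl
  have hE : ∑ x, (l : MonoidAlgebra ℤ Γ) * F x =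
      ∑ x, ((Nat.card {y // ind y = x} : MonoidAlgebra ℤ Γ) +
        (l : MonoidAlgebra ℤ Γ) * (Nat.card {y // ext y = x} : MonoidAlgebra ℤ Γ)) * F x :=
    Finset.sum_congr rfl (fun x _ => by rw [hC x])
  rw [hD, hE]
  simp only [add_mul, Finset.sum_add_distrib]
  rw [← hA, hA']
  congr 1
  simp only [mul_assoc]
  rw [← Finset.mul_sum, ← hB, hB']
  ring

end Pool.Agent.TH777.WR
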