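import Mathlib
import Pool.Agent.TH777.WR.Mass

set_option autoImplicit false

/-!
# Restriction to degrees prime to `p`, classes of degrees, divisibility of counting vectors
-/

namespace Pool.Agent.TH777.WR

open Finset

theorem Clif.congr {Γ : Type} [CommMonoid Γ] {l : ℕ} {lam : Γ} {I I' I'' : Type} {d : I → Γ}
    {d' : I' → Γ} {d'' : I'' → Γ} (h : Clif l lam d d') (e : I' ≃ I'')
    (he : ∀ x, d'' (e x) = d' x) : Clif l lam d d'' := by
  obtain ⟨ind, ext, hx, hi, hE⟩ := h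
  refine ⟨fun f => e (ind f), fun y => e (ext y), ?_, fun f => by rw [he, hi], fun y => by
    rw [he, hE]⟩
  intro x
  rcases hx (e.symm x) with ⟨h1, h2⟩ | ⟨h1, y, hy1, hy2⟩
  · left
    refine ⟨fun y hy => h1 y (by rw [← hy, e.symm_apply_apply]), ?_⟩
    refine (Nat.card_congr (Equiv.subtypeEquivRight fun f => ?_)).trans h2
    exact ⟨fun h => by rw [← h]; exact (e.symm_apply_apply _).symm,
      fun h => by show e (ind f) = x; rw [h, e.apply_symm_apply]⟩
  · right
    refine ⟨fun f hf => h1 f (by rw [← hf, e.symm_apply_apply]), y, ?_, ?_⟩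
    · show e (ext y) = x
      rw [hy1, e.apply_symm_apply]
    · intro z hz
      exact hy2 z (by
        show ext z = e.symm x
        rw [← hz, e.symm_apply_apply])

theorem Clif.restrict {p l : ℕ} (hp : p.Prime) (hlp : ¬ p ∣ l) {I I' : Type} {d : I → ℕ}
    {d' : I' → ℕ} (h : Clif l l d d') {Γ : Type} [CommMonoid Γ] (κ : ℕ → Γ) (h1 : κ 1 = 1)
    (hκ : ∀ a b, ¬ p ∣ a → ¬ p ∣ b → κ (a * b) = κ a * κ b) :
    Clif l (κ l) (fun x : {x : I // ¬ p ∣ d x} => κ (d x.1))
      (fun x : {x : I' // ¬ p ∣ d' x} => κ (d' x.1)) := by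
  classical
  obtain ⟨ind, ext, hx, hi, hE⟩ := h
  have hpr : ∀ (a : Fin l → ℕ), (∀ i, ¬ p ∣ a i) → ∀ s : Finset (Fin l),
      ¬ p ∣ ∏ i ∈ s, a i ∧ κ (∏ i ∈ s, a i) = ∏ i ∈ s, κ (a i) := by
    intro a ha s
    induction s using Finset.induction_on with
    | empty => exact ⟨by simpa using hp.one_lt.ne', by simpa using h1⟩
    | insert b s hb ih =>
      rw [Finset.prod_insert hb, Finset.prod_insert hb, hκ _ _ (ha b) ih.1, ih.2]
      exact ⟨fun hd => (hp.dvd_mul.1 hd).elim (ha b) ih.1, rfl⟩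
  have hpo : ∀ a, ¬ p ∣ a → ∀ k, ¬ p ∣ a ^ k ∧ κ (a ^ k) = κ a ^ k := by
    intro a ha k
    induction k with
    | zero => exact ⟨by simpa using hp.one_lt.ne', by simpa using h1⟩
    | succ k ih =>
      rw [pow_succ, pow_succ, hκ _ _ ih.1 ha, ih.2]
      exact ⟨fun hd => (hp.dvd_mul.1 hd).elim ih.1 ha, rfl⟩
  have hind : ∀ f : {f : Fin l → {x : I // ¬ p ∣ d x} // ∃ i j, f i ≠ f j},
      ∃ i j, (fun i => (f.1 i).1) i ≠ (fun i => (f.1 i).1) j := by
    rintro ⟨f, i, j, hij⟩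
    exact ⟨i, j, fun h => hij (Subtype.ext h)⟩
  refine ⟨fun f => ⟨ind ⟨fun i => (f.1 i).1, hind f⟩, ?_⟩, fun y => ⟨ext (y.1.1, y.2), ?_⟩,
    ?_, ?_, ?_⟩
  · rw [hi]
    intro hd
    rcases hp.dvd_mul.1 hd with h3 | h3
    · exact hlp h3
    · exact (hpr (fun i => d (f.1 i).1) (fun i => (f.1 i).2) univ).1 h3
  · rw [hE]
    exact (hpo _ y.1.2 l).1
  · intro x
    rcases hx x.1 with ⟨h2, h3⟩ | ⟨h2, y, hy1, hy2⟩
    · left
      refine ⟨fun y hy => h2 _ (congrArg Subtype.val hy), ?_⟩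
      refine (Nat.card_congr ?_).trans h3
      refine
        { toFun := fun f => ⟨⟨fun i => (f.1.1 i).1, hind f.1⟩, congrArg Subtype.val f.2⟩
          invFun := fun f => ⟨⟨fun i => ⟨f.1.1 i, ?_⟩, ?_⟩, ?_⟩
          left_inv := ?_
          right_inv := ?_ }
      · intro hd
        have h4 := x.2
        rw [← f.2, hi] at h4
        exact h4 ((hd.trans (Finset.dvd_prod_of_mem (fun i => d (f.1.1 i)) (mem_univ i))).trans
          (Dvd.intro_left _ rfl))
      · obtain ⟨i, j, hij⟩ := f.1.2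
        exact ⟨i, j, fun h => hij (congrArg Subtype.val h)⟩
      · exact Subtype.ext f.2
      · intro f; rfl
      · intro f; rfl
    · right
      refine ⟨fun f hf => h2 _ (congrArg Subtype.val hf), ?_⟩
      have hy3 : ¬ p ∣ d y.1 := by
        intro hd
        have h4 := x.2
        rw [← hy1, hE] at h4
        rcases Nat.eq_zero_or_pos l with h0 | h0
        · exact hlp (by rw [h0]; exact dvd_zero _)
        · exact h4 (hd.trans (dvd_pow_self _ h0.ne'))
      refine ⟨(⟨y.1, hy3⟩, y.2), Subtype.ext hy1, ?_⟩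
      intro z hz
      have h5 := hy2 (z.1.1, z.2) (congrArg Subtype.val hz)
      subst h5
      rfl
  · intro f
    show κ (d' (ind _)) = _
    rw [hi, hκ _ _ hlp (hpr (fun i => d (f.1 i).1) (fun i => (f.1 i).2) univ).1,
      (hpr (fun i => d (f.1 i).1) (fun i => (f.1 i).2) univ).2]
  · intro y
    show κ (d' (ext _)) = _
    rw [hE, (hpo _ y.1.2 l).2]

variable {Γ : Type} [CommGroup Γ]

theorem coeff_mass {I : Type} [Fintype I] (d : I → Γ) (g : Γ) :
    (mass d).coeff g = Nat.card {x // d x = g} := by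
  classical
  unfold mass
  rw [Nat.card_eq_fintype_card, Fintype.card_subtype, Finset.card_filter]
  have h : ∀ s : Finset I, (∑ x ∈ s, MonoidAlgebra.single (d x) (1 : ℤ)).coeff g =
      ∑ x ∈ s, if d x = g then 1 else 0 := by
    intro s
    induction s using Finset.induction_on with
    | empty => simp
    | insert a s ha ih =>
      rw [Finset.sum_insert ha, Finset.sum_insert ha, ← ih]
      simp [Finsupp.single_apply]
  rw [h univ]
  push_cast
  rfl

theorem dvd_mass [Finite Γ] {I J : Type} [Fintype I] [Fintype J] (d : I → Γ) (e : J → Γ) (l : ℕ)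
    (h : ∀ g, Nat.card {x // d x = g} ≡ Nat.card {y // e y = g} [MOD l]) :
    (l : MonoidAlgebra ℤ Γ) ∣ mass d - mass e := by
  have h1 : ∀ g, ∃ c : ℤ, (mass d - mass e).coeff g = l * c := by
    intro g
    have h2 := (Nat.modEq_iff_dvd.1 (h g).symm)
    obtain ⟨c, hc⟩ := h2
    refine ⟨c, ?_⟩
    rw [← hc]
    simp [coeff_mass]
  choose c hc using h1
  refine ⟨MonoidAlgebra.ofCoeff (Finsupp.equivFunOnFinite.symm c), ?_⟩
  ext g
  have h3 : (l : MonoidAlgebra ℤ Γ) *
      MonoidAlgebra.ofCoeff (Finsupp.equivFunOnFinite.symm c) =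
      l • MonoidAlgebra.ofCoeff (Finsupp.equivFunOnFinite.symm c) := (nsmul_eq_mul _ _).symm
  rw [hc, h3, MonoidAlgebra.coeff_smul_apply, nsmul_eq_mul]
  simp

end Pool.Agent.TH777.WR
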