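import Mathlib
import Pool.Agent.TH777.WR.Tools
import Pool.Agent.TH777.WR.Syl
import Pool.Agent.TH777.WR.Irr

set_option autoImplicit false

/-!
# The congruence modulo `l` makes the McKay bijection with degrees up to sign
-/

namespace Pool.Agent.TH777.WR

open Finset

/-- The cyclic group of order `l`. -/
abbrev Cyc (l : ℕ) : Type := Multiplicative (ZMod l)

/-- The classes of `(ℤ/p)ˣ` modulo the subgroup `S`. -/
abbrev Cls {p : ℕ} (S : Subgroup (ZMod p)ˣ) : Type := (ZMod p)ˣ ⧸ S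

open Classical in
/-- The class of a number. -/
noncomputable def kap {p : ℕ} (S : Subgroup (ZMod p)ˣ) (n : ℕ) : Cls S :=
  if h : IsUnit (n : ZMod p) then QuotientGroup.mk h.unit else 1

theorem isUnit_cast {p : ℕ} (hp : p.Prime) {n : ℕ} : IsUnit (n : ZMod p) ↔ ¬ p ∣ n := by
  rw [ZMod.isUnit_iff_coprime, Nat.coprime_comm, hp.coprime_iff_not_dvd]

theorem kap_one {p : ℕ} (S : Subgroup (ZMod p)ˣ) : kap S 1 = 1 := by
  unfold kap
  have h : IsUnit ((1 : ℕ) : ZMod p) := by simp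
  rw [dif_pos h, QuotientGroup.eq_one_iff]
  have : h.unit = 1 := by ext; simp
  rw [this]; exact Subgroup.one_mem _

theorem kap_mul {p : ℕ} (hp : p.Prime) (S : Subgroup (ZMod p)ˣ) (a b : ℕ) (ha : ¬ p ∣ a)
    (hb : ¬ p ∣ b) : kap S (a * b) = kap S a * kap S b := by
  unfold kap
  have h1 : IsUnit (a : ZMod p) := (isUnit_cast hp).2 ha
  have h2 : IsUnit (b : ZMod p) := (isUnit_cast hp).2 hb
  have h3 : IsUnit ((a * b : ℕ) : ZMod p) := by push_cast; exact h1.mul h2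
  rw [dif_pos h1, dif_pos h2, dif_pos h3, ← QuotientGroup.mk_mul]
  congr 1
  ext
  simp

theorem kap_eq_mk {p : ℕ} (hp : p.Prime) (S : Subgroup (ZMod p)ˣ) (a : ℕ) (ha : ¬ p ∣ a)
    (u : (ZMod p)ˣ) :
    kap S a = QuotientGroup.mk u ↔ ∃ s ∈ S, (a : ZMod p) = s * u := by
  unfold kap
  have h1 : IsUnit (a : ZMod p) := (isUnit_cast hp).2 ha
  rw [dif_pos h1, eq_comm, QuotientGroup.eq]
  constructor
  · intro h
    refine ⟨_, h, ?_⟩
    rw [Units.val_mul, mul_comm (u⁻¹ : (ZMod p)ˣ).val, mul_assoc, Units.inv_mul, mul_one]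
    rfl
  · rintro ⟨s, hs, h⟩
    have h2 : u⁻¹ * h1.unit = s := by
      rw [inv_mul_eq_iff_eq_mul]
      ext
      rw [IsUnit.unit_spec, h, Units.val_mul, mul_comm]
    rw [h2]; exact hs

theorem kap_eq_iff {p : ℕ} (hp : p.Prime) (S : Subgroup (ZMod p)ˣ) (a b : ℕ) (ha : ¬ p ∣ a)
    (hb : ¬ p ∣ b) : kap S a = kap S b ↔ ∃ s ∈ S, (a : ZMod p) = s * b := by
  have h2 : IsUnit (b : ZMod p) := (isUnit_cast hp).2 hb
  have h3 : kap S b = QuotientGroup.mk h2.unit := by unfold kap; rw [dif_pos h2]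
  rw [h3, kap_eq_mk hp S a ha]
  simp

/-- The irreducible characters of degree prime to `p`. -/
abbrev IrrP (p : ℕ) (G : Type) [Group G] : Type := {χ : Irr G // ¬ p ∣ deg χ}

/-- The normaliser of a Sylow subgroup. -/
abbrev Nrm {p : ℕ} {G : Type} [Group G] (P : Sylow p G) : Subgroup G :=
  Subgroup.normalizer ((P : Subgroup G) : Set G)

/-- The number of irreducible characters whose degree lies in `S r` modulo `p`. -/
noncomputable def Num {p : ℕ} (S : Subgroup (ZMod p)ˣ) (G : Type) [Group G] (r : (ZMod p)ˣ) : ℕ :=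
  Nat.card {χ : Irr G // ∃ s ∈ S, (deg χ : ZMod p) = s * r}

/-- Clifford theory for `G ≀ C_l` and the base group `G ^ l`. -/
def Cliff (l : ℕ) : Prop :=
  ∀ (G : Type) [Group G] [Finite G], Clif l l (deg : Irr G → ℕ) (deg : Irr (G ≀ᵣ Cyc l) → ℕ)

theorem num_eq {p : ℕ} [hp : Fact p.Prime] (S : Subgroup (ZMod p)ˣ) (G : Type) [Group G]
    (u : (ZMod p)ˣ) :
    Num S G u = Nat.card {χ : IrrP p G // kap S (deg χ.1) = QuotientGroup.mk u} := by
  unfold Num
  have h0 : ∀ χ : Irr G, (∃ s ∈ S, (deg χ : ZMod p) = s * u) → ¬ p ∣ deg χ := by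
    rintro χ ⟨s, _, h⟩ hd
    rw [(ZMod.natCast_eq_zero_iff _ _).2 hd, ← Units.val_mul] at h
    exact (s * u).ne_zero h.symm
  refine Nat.card_congr
    { toFun := fun χ => ⟨⟨χ.1, h0 χ.1 χ.2⟩, (kap_eq_mk hp.out S _ (h0 χ.1 χ.2) u).2 χ.2⟩
      invFun := fun χ => ⟨χ.1.1, (kap_eq_mk hp.out S _ χ.1.2 u).1 χ.2⟩
      left_inv := fun _ => rfl
      right_inv := fun _ => rfl }

noncomputable instance irrP_fintype (p : ℕ) (G : Type) [Group G] [Finite G] :
    Fintype (IrrP p G) := Fintype.ofFinite _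

/-- The counting vector of a group. -/
noncomputable def Vec {Γ : Type} [CommGroup Γ] (κ : ℕ → Γ) (p : ℕ) (G : Type) [Group G]
    [Finite G] : MonoidAlgebra ℤ Γ :=
  mass (fun χ : IrrP p G => κ (deg χ.1))

theorem clif_G {p l : ℕ} [hp : Fact p.Prime] {Γ : Type} [CommGroup Γ] {κ : ℕ → Γ} (hκ1 : κ 1 = 1)
    (hκ : ∀ a b, ¬ p ∣ a → ¬ p ∣ b → κ (a * b) = κ a * κ b) (hpl : ¬ p ∣ l) (hC : Cliff l)
    (G : Type) [Group G] [Finite G] : Clif l (κ l) (fun χ : IrrP p G => κ (deg χ.1))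
      (fun χ : IrrP p (G ≀ᵣ Cyc l) => κ (deg χ.1)) :=
  (hC G).restrict hp.out hpl κ hκ1 hκ

theorem mass_congr {Γ : Type} [CommGroup Γ] {I J : Type} [Fintype I] [Fintype J] (e : I ≃ J)
    (d : I → Γ) (d' : J → Γ) (h : ∀ x, d' (e x) = d x) : mass d = mass d' := by
  unfold mass
  rw [← Equiv.sum_comp e]
  exact Finset.sum_congr rfl fun x _ => by rw [h]

theorem vec_congr {p : ℕ} {Γ : Type} [CommGroup Γ] (κ : ℕ → Γ) {G H : Type} [Group G] [Group H]
    [Finite G] [Finite H] (e : G ≃* H) : Vec κ p G = Vec κ p H :=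
  mass_congr ((irrCongr e).subtypeEquiv fun χ => by rw [deg_irrCongr]) _ _ fun χ => by
    show κ (deg (irrCongr e χ.1)) = _
    rw [deg_irrCongr]

/-- A finite group with a Sylow subgroup. -/
structure Pt (p : ℕ) where
  /-- the group -/
  G : Type
  [grp : Group G]
  [fin : Finite G]
  /-- the Sylow subgroup -/
  P : Sylow p G

attribute [instance] Pt.grp Pt.fin

/-- The wreath product with the cyclic group of order `l`. -/
noncomputable def Pt.next {p : ℕ} [Fact p.Prime] (l : ℕ) [NeZero l]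
    (h : ¬ p ∣ Nat.card (Cyc l)) (x : Pt p) : Pt p :=
  ⟨x.G ≀ᵣ Cyc l, wrSyl x.P (Cyc l) h⟩

/-- The counting vector of the group. -/
noncomputable def VG {Γ : Type} [CommGroup Γ] (κ : ℕ → Γ) {p : ℕ} (x : Pt p) :
    MonoidAlgebra ℤ Γ := Vec κ p x.G

/-- The counting vector of the normaliser. -/
noncomputable def VN {Γ : Type} [CommGroup Γ] (κ : ℕ → Γ) {p : ℕ} (x : Pt p) :
    MonoidAlgebra ℤ Γ := Vec κ p (Nrm x.P)

theorem vec_eq {p l : ℕ} [hp : Fact p.Prime] {Γ : Type} [CommGroup Γ] [Finite Γ] {κ : ℕ → Γ}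
    (hκ1 : κ 1 = 1) (hκ : ∀ a b, ¬ p ∣ a → ¬ p ∣ b → κ (a * b) = κ a * κ b) (hl : l.Prime)
    [NeZero l] (hlp : l ≠ p) (hc : (Nat.card Γ).Coprime l) (hC : Cliff l) (x : Pt p)
    (h : ¬ p ∣ Nat.card (Cyc l))
    (hcon : ∀ i, ∀ g : Γ,
      Nat.card {χ : IrrP p ((Pt.next l h)^[i] x).G // κ (deg χ.1) = g} ≡
        Nat.card {χ : IrrP p (Nrm ((Pt.next l h)^[i] x).P) // κ (deg χ.1) = g} [MOD l]) :
    Vec κ p x.G = Vec κ p (Nrm x.P) := by
  have hpl : ¬ p ∣ l := fun hd => hlp ((Nat.prime_dvd_prime_iff_eq hp.out hl).1 hd).symm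
  refine core (l := l) hl.two_le hc (κ l)
    (fun i => VG κ ((Pt.next l h)^[i] x)) (fun i => VN κ ((Pt.next l h)^[i] x)) ?_ ?_ ?_
  · intro i
    simp only [Function.iterate_succ_apply']
    exact clif_mass hl.one_le (clif_G hκ1 hκ hpl hC ((Pt.next l h)^[i] x).G)
  · intro i
    simp only [Function.iterate_succ_apply']
    have h1 := clif_mass hl.one_le (clif_G hκ1 hκ hpl hC (Nrm ((Pt.next l h)^[i] x).P))
    have h2 : Vec κ p (Nrm ((Pt.next l h)^[i] x).P ≀ᵣ Cyc l) =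
        VN κ (Pt.next l h ((Pt.next l h)^[i] x)) :=
      (vec_congr κ (normEquiv (Q := Cyc l)
        (((Pt.next l h)^[i] x).P : Subgroup ((Pt.next l h)^[i] x).G))).symm
    rw [← h2]
    exact h1
  · intro i
    exact dvd_mass _ _ l fun g => hcon i g

theorem cyc_card {p l : ℕ} (hp : p.Prime) (hl : l.Prime) (hlp : l ≠ p) :
    ¬ p ∣ Nat.card (Cyc l) := by
  have : Nat.card (Cyc l) = l := by
    rw [Nat.card_congr Multiplicative.toAdd, Nat.card_zmod]
  rw [this]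
  exact fun hd => hlp ((Nat.prime_dvd_prime_iff_eq hp hl).1 hd).symm

theorem class_next {p l : ℕ} [hp : Fact p.Prime] [NeZero l] (h : ¬ p ∣ Nat.card (Cyc l))
    (K : (G : Type) → [Group G] → Prop)
    (hK : ∀ (G : Type) [Group G] [Finite G], K G → K (G ≀ᵣ Cyc l)) (x : Pt p) (hx : K x.G) :
    ∀ i, K ((Pt.next l h)^[i] x).G := by
  intro i
  induction i with
  | zero => exact hx
  | succ i ih =>
    rw [Function.iterate_succ_apply']
    exact hK _ ih

theorem card_of_vec {p : ℕ} {Γ : Type} [CommGroup Γ] (κ : ℕ → Γ) {G H : Type} [Group G] [Group H]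
    [Finite G] [Finite H] (h : Vec κ p G = Vec κ p H) (g : Γ) :
    Nat.card {χ : IrrP p G // κ (deg χ.1) = g} = Nat.card {χ : IrrP p H // κ (deg χ.1) = g} := by
  have h3 := congrArg (fun v => v.coeff g) h
  simp only [Vec, coeff_mass] at h3
  exact_mod_cast h3

theorem main {p l : ℕ} [hp : Fact p.Prime] (hl : l.Prime) (hlp : l ≠ p)
    (S : Subgroup (ZMod p)ˣ) (hS : ¬ l ∣ S.index) (hC : Cliff l)
    (K : (G : Type) → [Group G] → Prop)
    (hK : ∀ (G : Type) [Group G] [Finite G], K G → K (G ≀ᵣ Cyc l)) :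
    (∀ (G : Type) [Group G] [Finite G], K G → ∀ P : Sylow p G,
      ∃ e : IrrP p G ≃ IrrP p (Nrm P), ∀ χ,
        ∃ s ∈ S, (deg χ.1 : ZMod p) = s * deg (e χ).1) ↔
    (∀ (G : Type) [Group G] [Finite G], K G → ∀ P : Sylow p G, ∀ r : (ZMod p)ˣ,
      Num S G r ≡ Num S (Nrm P) r [MOD l]) := by
  have : NeZero l := ⟨hl.ne_zero⟩
  constructor
  · intro H G _ _ hG P r
    obtain ⟨e, he⟩ := H G hG P
    have h1 : Num S G r = Num S (Nrm P) r := by
      rw [num_eq, num_eq]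
      refine Nat.card_congr (e.subtypeEquiv fun χ => ?_)
      rw [(kap_eq_iff hp.out S _ _ χ.2 (e χ).2).2 (he χ)]
    rw [h1]
  · intro H G _ _ hG P
    have hcard := cyc_card hp.out hl hlp
    have hc : (Nat.card (Cls S)).Coprime l := by
      rw [Nat.coprime_comm]
      exact (Nat.Prime.coprime_iff_not_dvd hl).2 hS
    have h1 : Vec (kap S) p G = Vec (kap S) p (Nrm P) :=
      vec_eq (kap_one S) (kap_mul hp.out S) hl hlp hc hC ⟨G, P⟩ hcard fun i g => by
        obtain ⟨u, rfl⟩ := QuotientGroup.mk_surjective g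
        rw [← num_eq, ← num_eq]
        exact H _ (class_next hcard K hK ⟨G, P⟩ hG i) _ u
    have h4 : ∀ g : Cls S, Nonempty ({χ : IrrP p G // kap S (deg χ.1) = g} ≃
        {χ : IrrP p (Nrm P) // kap S (deg χ.1) = g}) :=
      fun g => Finite.card_eq.1 (card_of_vec (kap S) h1 g)
    obtain ⟨e, he⟩ : ∃ e : IrrP p G ≃ IrrP p (Nrm P),
        ∀ χ, kap S (deg (e χ).1) = kap S (deg χ.1) :=
      ⟨Equiv.ofFiberEquiv (f := fun χ : IrrP p G => kap S (deg χ.1))
        (g := fun χ : IrrP p (Nrm P) => kap S (deg χ.1)) fun g => (h4 g).some,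
        Equiv.ofFiberEquiv_map (f := fun χ : IrrP p G => kap S (deg χ.1))
        (g := fun χ : IrrP p (Nrm P) => kap S (deg χ.1)) (fun g => (h4 g).some)⟩
    exact ⟨e, fun χ => (kap_eq_iff hp.out S _ _ χ.2 (e χ).2).1 (he χ).symm⟩

end Pool.Agent.TH777.WR
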